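import Pool.Agent.Lib.MP_f095a5_lc.Formula

/-!
# Parallelization is first-order definable in the Weihrauch degrees

The formula is the following; all quantifiers range over the degrees other than the top element,
`⋆` is the compositional product and `^*` the finite parallelization.  The parallelization of `a`
is below `p` if and only if for all `ω`, `ν`, `h` with `h ≤ (a × a^*) × ω` and
`∀ c, h ≤ ν ⋆ c → h ≤ c` there is `g ≤ ω` with `∀ c, g ≤ ν ⋆ c → g ≤ c` and `h ≤ g ⋆ p`.
-/

open FirstOrder FirstOrder.Language

namespace Pool.Agent.Results.MP_f095a5_lc.Definable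

open Pool.Agent.Lib.MP_f095a5_lc

universe u v

/-- Parallelization is first-order definable, without parameters, from the order, the parallel
product, the compositional product and the finite parallelization of Weihrauch degrees. The symbols
`mul`, `cp` and `st` may have any values at the top element, and the language may have any further
symbols, with any interpretation. -/
theorem result :
    ∀ (L : FirstOrder.Language.{u, v}) (le : L.Relations 2) (mul cp : L.Functions 2)
      (st : L.Functions 1), ∃ φ : L.Formula (Fin 2), ∀ [L.Structure WDeg],
      (∀ a b : WDeg, Structure.RelMap le ![a, b] ↔ a ≤ b) →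
      (∀ a b : Deg, Structure.funMap mul ![(a : WDeg), (b : WDeg)] = (Deg.prod a b : Deg)) →
      (∀ a b : Deg, IsGreatest {d : WDeg | ∃ f g : Problem, deg f ≤ a ∧ deg g ≤ b ∧
        d = (deg (comp f g) : Deg)} (Structure.funMap cp ![(a : WDeg), (b : WDeg)])) →
      (∀ a : Deg, Structure.funMap st ![(a : WDeg)] = (Deg.fstar a : Deg)) →
      ∀ a b : WDeg, φ.Realize ![a, b] ↔ b = parallelization a := by
  intro L le mul cp st
  refine ⟨hatF (n := 0) le mul cp st (Term.var (Sum.inl 0)) (Term.var (Sum.inl 1)), ?_⟩
  intro _ hle hmul hcp hst a b
  have hcp' : ∀ a b : Deg, Structure.funMap cp ![(a : WDeg), (b : WDeg)] = (Deg.star a b : Deg) :=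
    fun a b => (hcp a b).unique (Deg.isGreatest_star a b)
  rw [Formula.Realize, realize_hatF hle hmul hcp' hst]
  rfl

end Pool.Agent.Results.MP_f095a5_lc.Definable
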